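import Pool.Agent.W770.PC.Stms

set_option autoImplicit false

open MeasureTheory Set Filter Topology
open scoped ENNReal NNReal

namespace Pool.Agent.W32.PC

open Pool.Agent.W770.PC

theorem line_core (p : Polynomial ℝ) (D : ℕ) (hp : p.natDegree ≤ D) (φ : ℝ → ℝ≥0∞)
    (hφ : Measurable φ) :
    ∫⁻ u, φ (p.eval u) * ENNReal.ofReal |p.derivative.eval u| ≤ ((D + 1 : ℕ) : ℝ≥0∞) * ∫⁻ v, φ v := by
  classical
  by_cases h0 : p.derivative = 0
  · rw [h0]; simp
  set S : Finset ℝ := p.derivative.roots.toFinset with hS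
  have hcard : S.card ≤ D := by
    calc S.card ≤ Multiset.card p.derivative.roots := Multiset.toFinset_card_le _
      _ ≤ p.derivative.natDegree := Polynomial.card_roots' _
      _ ≤ D := (Polynomial.natDegree_derivative_le p).trans (by omega)
  set I : ℕ → Set ℝ := fun k => {u | (S.filter (fun s => s < u)).card = k} with hI
  have hmeas : ∀ k, MeasurableSet (I k) := by
    intro k
    have hm : Measurable (fun u : ℝ => (S.filter (fun s => s < u)).card) := by
      have : (fun u : ℝ => (S.filter (fun s => s < u)).card) = fun u => ∑ s ∈ S, if s < u then 1 else 0 := by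
        funext u; rw [Finset.card_filter]
      rw [this]
      refine Finset.measurable_sum _ fun s _ => ?_
      exact Measurable.ite (measurableSet_lt measurable_const measurable_id) measurable_const
        measurable_const
    exact hm (measurableSet_singleton k)
  have hinj : ∀ k, InjOn (fun u => p.eval u) (I k) := by
    intro k
    have key : ∀ u ∈ I k, ∀ v ∈ I k, u < v → p.eval u ≠ p.eval v := by
      intro u hu v hv huv he
      obtain ⟨c, hc, hc2⟩ := exists_deriv_eq_zero (f := fun x => p.eval x) huv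
        p.continuous.continuousOn he
      rw [Polynomial.deriv] at hc2
      have hcS : c ∈ S := by
        rw [hS, Multiset.mem_toFinset, Polynomial.mem_roots h0]
        exact hc2
      have hlt : (S.filter (fun s => s < u)).card < (S.filter (fun s => s < v)).card := by
        apply Finset.card_lt_card
        refine Finset.ssubset_iff_subset_ne.mpr ⟨fun s hs => ?_, fun he2 => ?_⟩
        · rw [Finset.mem_filter] at hs ⊢
          exact ⟨hs.1, hs.2.trans huv⟩
        · have h3 : c ∈ S.filter (fun s => s < v) := Finset.mem_filter.mpr ⟨hcS, hc.2⟩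
          rw [← he2, Finset.mem_filter] at h3
          exact absurd h3.2 (not_lt.mpr hc.1.le)
      have e1 : (S.filter (fun s => s < u)).card = k := hu
      have e2 : (S.filter (fun s => s < v)).card = k := hv
      omega
    intro u hu v hv he
    rcases lt_trichotomy u v with h | h | h
    · exact absurd he (key u hu v hv h)
    · exact h
    · exact absurd he.symm (key v hv u hu h)
  have hone : ∀ k, ∫⁻ u in I k, φ (p.eval u) * ENNReal.ofReal |p.derivative.eval u| ≤ ∫⁻ v, φ v := by
    intro k
    have h1 := lintegral_image_eq_lintegral_abs_deriv_mul (hmeas k)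
      (f := fun u => p.eval u) (f' := fun u => p.derivative.eval u)
      (fun x _ => (p.hasDerivAt x).hasDerivWithinAt) (hinj k) φ
    calc ∫⁻ u in I k, φ (p.eval u) * ENNReal.ofReal |p.derivative.eval u|
        = ∫⁻ u in I k, ENNReal.ofReal |p.derivative.eval u| * φ (p.eval u) := by
          refine lintegral_congr fun u => ?_
          rw [mul_comm]
      _ = ∫⁻ v in (fun u => p.eval u) '' I k, φ v := h1.symm
      _ ≤ ∫⁻ v, φ v := setLIntegral_le_lintegral _ _
  have hF : Measurable (fun u => φ (p.eval u) * ENNReal.ofReal |p.derivative.eval u|) := by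
    have c1 := p.continuous
    have c2 := p.derivative.continuous
    exact (hφ.comp c1.measurable).mul (c2.abs.measurable.ennreal_ofReal)
  have hsum : ∀ u, φ (p.eval u) * ENNReal.ofReal |p.derivative.eval u| ≤
      ∑ k ∈ Finset.range (D + 1), (I k).indicator
        (fun u => φ (p.eval u) * ENNReal.ofReal |p.derivative.eval u|) u := by
    intro u
    have hk : (S.filter (fun s => s < u)).card ∈ Finset.range (D + 1) := by
      rw [Finset.mem_range]
      have := Finset.card_filter_le S (fun s => s < u)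
      omega
    refine le_trans ?_ (Finset.single_le_sum (f := fun k => (I k).indicator
        (fun u => φ (p.eval u) * ENNReal.ofReal |p.derivative.eval u|) u) (fun _ _ => zero_le) hk)
    have hmem : u ∈ I (S.filter (fun s => s < u)).card := rfl
    rw [indicator_of_mem hmem]
  calc ∫⁻ u, φ (p.eval u) * ENNReal.ofReal |p.derivative.eval u|
      ≤ ∫⁻ u, ∑ k ∈ Finset.range (D + 1), (I k).indicator
        (fun u => φ (p.eval u) * ENNReal.ofReal |p.derivative.eval u|) u := lintegral_mono hsum
    _ = ∑ k ∈ Finset.range (D + 1), ∫⁻ u in I k, φ (p.eval u) * ENNReal.ofReal |p.derivative.eval u| := by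
      rw [lintegral_finsetSum _ (fun k _ => hF.indicator (hmeas k))]
      refine Finset.sum_congr rfl fun k _ => ?_
      rw [lintegral_indicator (hmeas k)]
    _ ≤ ∑ k ∈ Finset.range (D + 1), ∫⁻ v, φ v := Finset.sum_le_sum fun k _ => hone k
    _ = ((D + 1 : ℕ) : ℝ≥0∞) * ∫⁻ v, φ v := by
      rw [Finset.sum_const, Finset.card_range, nsmul_eq_mul]

/-- the polynomial of one variable -/
noncomputable def pl1 (Q : MvPolynomial (Fin 2) ℝ) (c : ℝ) : Polynomial ℝ :=
  MvPolynomial.aeval ![Polynomial.X, Polynomial.C c] Q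

/-- the polynomial of one variable -/
noncomputable def pl2 (Q : MvPolynomial (Fin 2) ℝ) (c : ℝ) : Polynomial ℝ :=
  MvPolynomial.aeval ![Polynomial.C c, Polynomial.X] Q

theorem pl1_eval (Q : MvPolynomial (Fin 2) ℝ) (c u : ℝ) : (pl1 Q c).eval u = pf Q (u, c) := by
  unfold pl1 pf
  induction Q using MvPolynomial.induction_on with
  | C a => simp
  | add p q hp hq => rw [map_add, Polynomial.eval_add, hp, hq, map_add]
  | mul_X p i hp =>
    rw [map_mul, Polynomial.eval_mul, hp, map_mul, MvPolynomial.aeval_X, MvPolynomial.eval_X]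
    fin_cases i <;> simp

theorem pl2_eval (Q : MvPolynomial (Fin 2) ℝ) (c u : ℝ) : (pl2 Q c).eval u = pf Q (c, u) := by
  unfold pl2 pf
  induction Q using MvPolynomial.induction_on with
  | C a => simp
  | add p q hp hq => rw [map_add, Polynomial.eval_add, hp, hq, map_add]
  | mul_X p i hp =>
    rw [map_mul, Polynomial.eval_mul, hp, map_mul, MvPolynomial.aeval_X, MvPolynomial.eval_X]
    fin_cases i <;> simp

theorem pl1_deg (Q : MvPolynomial (Fin 2) ℝ) (c : ℝ) (D : ℕ) (hQ : Q.totalDegree ≤ D) :
    (pl1 Q c).natDegree ≤ D := by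
  have := MvPolynomial.aeval_natDegree_le Q hQ (n := 1) ![Polynomial.X, Polynomial.C c] (by
    intro i
    fin_cases i <;> simp)
  rwa [mul_one] at this

theorem pl2_deg (Q : MvPolynomial (Fin 2) ℝ) (c : ℝ) (D : ℕ) (hQ : Q.totalDegree ≤ D) :
    (pl2 Q c).natDegree ≤ D := by
  have := MvPolynomial.aeval_natDegree_le Q hQ (n := 1) ![Polynomial.C c, Polynomial.X] (by
    intro i
    fin_cases i <;> simp)
  rwa [mul_one] at this

theorem pl1_der (h1 : S_dpf) (Q : MvPolynomial (Fin 2) ℝ) (c u : ℝ) :
    (pl1 Q c).derivative.eval u = pf (MvPolynomial.pderiv 0 Q) (u, c) := by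
  rw [← (h1 Q).2.1]
  unfold d1
  have : (fun v : ℝ => pf Q (v, (u, c).2)) = fun v => (pl1 Q c).eval v := by
    funext v; rw [pl1_eval]
  rw [this, Polynomial.deriv]

theorem pl2_der (h1 : S_dpf) (Q : MvPolynomial (Fin 2) ℝ) (c u : ℝ) :
    (pl2 Q c).derivative.eval u = pf (MvPolynomial.pderiv 1 Q) (c, u) := by
  rw [← (h1 Q).2.2.1]
  unfold d2
  have : (fun v : ℝ => pf Q ((c, u).1, v)) = fun v => (pl2 Q c).eval v := by
    funext v; rw [pl2_eval]
  rw [this, Polynomial.deriv]

theorem rest : (volume.restrict Om : Measure (ℝ × ℝ)) =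
    (volume.restrict (Icc (-1 : ℝ) 2)).prod (volume.restrict (Icc (-1 : ℝ) 2)) := by
  unfold Om
  rw [Measure.prod_restrict, ← Measure.volume_eq_prod]

theorem vol3 : (volume.restrict (Icc (-1 : ℝ) 2) : Measure ℝ) univ = 3 := by
  rw [Measure.restrict_apply_univ, Real.volume_Icc]
  norm_num

theorem line_thm (h1 : S_dpf) : S_line := by
  intro D
  refine ⟨3 * (D + 1), by positivity, ?_⟩
  intro Q hQ φ hφ
  have hm : ∀ i : Fin 2, Measurable (fun y : ℝ × ℝ =>
      φ (pf Q y) * ENNReal.ofReal |pf (MvPolynomial.pderiv i Q) y|) := by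
    intro i
    have c1 := (h1 Q).1.continuous
    have c2 := (h1 (MvPolynomial.pderiv i Q)).1.continuous
    exact (hφ.comp c1.measurable).mul (c2.abs.measurable.ennreal_ofReal)
  have hC : ENNReal.ofReal (3 * ((D : ℝ) + 1)) = ((D + 1 : ℕ) : ℝ≥0∞) * 3 := by
    rw [show (3 : ℝ) * ((D : ℝ) + 1) = ((3 * (D + 1) : ℕ) : ℝ) by push_cast; ring,
      ENNReal.ofReal_natCast]
    push_cast; ring
  constructor
  · rw [rest, lintegral_prod_symm _ (hm 0).aemeasurable]
    calc ∫⁻ y in Icc (-1 : ℝ) 2, ∫⁻ x in Icc (-1 : ℝ) 2,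
          φ (pf Q (x, y)) * ENNReal.ofReal |pf (MvPolynomial.pderiv 0 Q) (x, y)|
        ≤ ∫⁻ _ in Icc (-1 : ℝ) 2, ((D + 1 : ℕ) : ℝ≥0∞) * ∫⁻ v, φ v := by
          refine lintegral_mono fun y => ?_
          refine (setLIntegral_le_lintegral _ _).trans ?_
          have := line_core (pl1 Q y) D (pl1_deg Q y D hQ) φ hφ
          simp only [pl1_eval, pl1_der h1] at this
          exact this
      _ = _ := by
          rw [lintegral_const, vol3, hC]; ring
  · rw [rest, lintegral_prod _ (hm 1).aemeasurable]
    calc ∫⁻ x in Icc (-1 : ℝ) 2, ∫⁻ y in Icc (-1 : ℝ) 2,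
          φ (pf Q (x, y)) * ENNReal.ofReal |pf (MvPolynomial.pderiv 1 Q) (x, y)|
        ≤ ∫⁻ _ in Icc (-1 : ℝ) 2, ((D + 1 : ℕ) : ℝ≥0∞) * ∫⁻ v, φ v := by
          refine lintegral_mono fun x => ?_
          refine (setLIntegral_le_lintegral _ _).trans ?_
          have := line_core (pl2 Q x) D (pl2_deg Q x D hQ) φ hφ
          simp only [pl2_eval, pl2_der h1] at this
          exact this
      _ = _ := by
          rw [lintegral_const, vol3, hC]; ring

end Pool.Agent.W32.PC
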